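import Pool.Agent.Lib.helper26.BGW

namespace Pool.Agent.Results.MP_e34f63_pr.Literal
open Pool.Agent.Lib.helper26.BGW

theorem result : ∃ ζ ζ' : Fin 2 → PMF (List (Fin 2)), (∀ i, ∃ t, root t = i ∧ W ζ t ≠ 0) ∧
    (∀ i j, Relation.ReflTransGen (fun a b => ∃ x, ζ a x ≠ 0 ∧ b ∈ x) i j) ∧
    CondII 1 ζ ζ' ∧ ¬ CondI ζ ζ' := by
  refine ⟨z, z', fun i => ?_, fun i j => ?_, ?_, fun h => ?_⟩
  · fin_cases i
    · exact ⟨.node 0 [.node 1 []], rfl, by simp [W_eq, z, root_node]⟩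
    · exact ⟨.node 1 [], rfl, by simp [W_eq, z]⟩
  · fin_cases i <;> fin_cases j
    exacts [.refl, .single ⟨[1], by simp [z], by simp⟩,
      .single ⟨[0], by simp [z], by simp⟩, .refl]
  · rintro i g ⟨t, rfl, h2, h3⟩
    exact ⟨_, by simp, by simp, key g _ (par g t h2 h3)⟩
  · simpa [z, z'] using h 0 []

end Pool.Agent.Results.MP_e34f63_pr.Literal
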