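import Pool.Agent.Lib.helper26.BGW

namespace Pool.Agent.Results.MP_e34f63_pr.Positive
open Pool.Agent.Lib.helper26.BGW

theorem result (K : ℕ) (Γ : Fin K → ℕ) (ζ ζ' : Fin K → PMF (List (Fin K)))
    (fin : ∀ i, ∃ t, root t = i ∧ W ζ t ≠ 0)
    (irr : ∀ i j, Relation.ReflTransGen (fun a b => ∃ x, ζ a x ≠ 0 ∧ b ∈ x) i j)
    (nd : ∃ i x, ζ i x ≠ 0 ∧ 2 ≤ x.length) (h : CondII Γ ζ ζ') : CondI ζ ζ' := by
  choose τ hτ using fin
  exact main h hτ irr nd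

end Pool.Agent.Results.MP_e34f63_pr.Positive
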